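import Pool.Agent.H225.FX

/-!
# Almost prime triples and quadruples, isolated, in sparse sets given by digits

The shapes are `Q 0 = {0, 2, 6}` (Q1) and `Q 1 = {0, 2, 6, 8}` (Q2).  Let `b ≥ 2` be a base and let the digits of an integer `n < b^K` be
restricted: the `i`-th digit belongs to a set `A i`, where the sets `A i` are arbitrary, depend on the
place `i < K`, and have the only property that the number `∏ |A i|` of these integers is at least
`e^{-δK} b^K`, where the constant `δ > 0` does not depend on `b`.  Let `N` be an arbitrary base point up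
to a fixed power of `b^K`, and `m = N + n`.

For each shape `Q` with `k` elements at least `κ ∏ |A i| / K^k` of these `m` are such that the numbers
`m + q`, `q ∈ Q`, have at most `r` prime factors, all larger than `b^{K/r}`, while EVERY other integer in
`[m, m + c K]` has a prime factor `≤ b^{K/r}` (if the last digit can be chosen such that the `k` numbers
are prime to `b`); and for at most `C ∏ |A i| / K^k` of these `m` the numbers `m + q` are primes.

The method is a Brun–Hooley sieve with weights, whose level of distribution is obtained from the Fourier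
transform of the set of the integers with restricted digits at rationals (large sieve in blocks of
digits), see `Pool/Agent/Y816/PD`; the other integers in `[m, m + c K]` are excluded by the upper bound for
patterns with one more element and an average of the sieve products (`Pool/Agent/H225/EX2`).
-/

set_option autoImplicit false

namespace Pool.Agent.Results.MP_3efbeb_nt.IsolatedWithDigits

open Finset Filter

/-- The two shapes. -/
def Q : Fin 2 → Finset ℕ := ![{0, 2, 6}, {0, 2, 6, 8}]

open Classical in
/-- The number of the `n < b ^ K`, whose `i`-th digit in base `b` belongs to `A i` for all `i < K`, such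
that `N + n` belongs to `T`. -/
noncomputable def count (b K N : ℕ) (A : ℕ → Finset ℕ) (T : Set ℕ) : ℕ :=
  ((range (b ^ K)).filter (fun n => (∀ i < K, n / b ^ i % b ∈ A i) ∧ N + n ∈ T)).card

/-- The number of choices of the digits. -/
noncomputable def choices (K : ℕ) (A : ℕ → Finset ℕ) : ℝ := ∏ i ∈ range K, ((A i).card : ℝ)

/-- All prime factors of `m` are larger than `z ^ (1 / r)`. -/
def Rough (r z m : ℕ) : Prop := ∀ p : ℕ, p.Prime → p ∣ m → z < p ^ r

open Pool.Agent.Y816.PD (ND ND_sub)

lemma adm_Q (s : Fin 2) : Pool.Agent.H225.EX.Adm (Q s) := by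
  intro p hp
  by_cases hs : p < 16
  · -- a residue for each small prime
    interval_cases p
    all_goals first
      | (exfalso; revert hp; norm_num; done)
      | (fin_cases s <;>
          first
            | exact ⟨1, by decide⟩
            | exact ⟨2, by decide⟩
            | exact ⟨3, by decide⟩
            | exact ⟨4, by decide⟩
            | exact ⟨5, by decide⟩
            | exact ⟨6, by decide⟩)
  · refine ⟨1, fun q hq hd => ?_⟩
    have hle := Nat.le_of_dvd (by omega) hd
    have hq' : q ≤ 10 := by
      fin_cases s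
      · have : ∀ q ∈ Q 0, q ≤ 10 := by decide
        exact this q hq
      · have : ∀ q ∈ Q 1, q ≤ 10 := by decide
        exact this q hq
    omega

/-- **Almost prime triples and quadruples, isolated, at integers with restricted digits.** -/
theorem result (s : Fin 2) (D : ℕ) :
    ∃ δ : ℝ, 0 < δ ∧ ∃ r₀ : ℕ, 2 ≤ r₀ ∧ ∀ r : ℕ, r₀ ≤ r → ∀ b : ℕ, 2 ≤ b →
      ∃ κ C c : ℝ, 0 < κ ∧ 0 < C ∧ 0 < c ∧ ∀ᶠ K : ℕ in atTop, ∀ N : ℕ, N ≤ b ^ (D * K) →
        ∀ A : ℕ → Finset ℕ, (∀ i < K, A i ⊆ range b) →
        (b : ℝ) ^ K ≤ Real.exp (δ * K) * choices K A →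
        ((∃ e ∈ A 0, ∀ q ∈ Q s, (N + e + q).Coprime b) → (∃ e ∈ A (K - 1), e ≠ 0) →
          κ * choices K A / (K : ℝ) ^ (Q s).card ≤ count b K N A {m | N + b ^ (K - 1) ≤ m ∧
            (∀ q ∈ Q s, Rough r (b ^ K) (m + q) ∧ (m + q).primeFactorsList.length ≤ r) ∧
            ∀ j : ℕ, (j : ℝ) ≤ c * K → j ∉ Q s → ¬ Rough r (b ^ K) (m + j)}) ∧
        (count b K N A {m | ∀ q ∈ Q s, (m + q).Prime} : ℝ) ≤
          C * choices K A / (K : ℝ) ^ (Q s).card := by
  obtain ⟨δ, hδ, r₀, hr₀, h⟩ := Pool.Agent.H225.FX.fx (Q s)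
    ⟨0, by fin_cases s <;> decide⟩ (adm_Q s) D
  refine ⟨δ, hδ, r₀, hr₀, fun r hr b hb => ?_⟩
  obtain ⟨κ, C, c, hκ, hC, hc, h1⟩ := h r hr b hb
  refine ⟨κ, C, c, hκ, hC, hc, ?_⟩
  filter_upwards [h1] with K hK N hN A hA hprod
  obtain ⟨h2, h3⟩ := hK N hN A hA hprod
  refine ⟨fun hcop htop => (h2 hcop htop).trans (Nat.cast_le.2 (ND_sub fun n hn hn1 hn2 =>
    ⟨hn1, ?_⟩)), h3⟩
  obtain ⟨g1, g2, g3⟩ := hn2
  exact ⟨by omega, g2, g3⟩

end Pool.Agent.Results.MP_3efbeb_nt.IsolatedWithDigits
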