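import Pool.Agent.V11237.LP.PtShort

set_option autoImplicit false

/-!
# Almost prime triples `n, n + 2, n + 6` and quadruples `n, n + 2, n + 6, n + 8` in all short intervals:
their number and the laws of their gaps
-/

namespace Pool.Agent.Results.MP_3efbeb_nt.TripleAndQuadrupleLaws

open Finset
open Pool.Agent.V11237.LP.Pt

/-- **Theorem.** Let `θ > 0`, `l₀`, `x₀` and `ε > 0`.
(1) For `c = 11` and `c = 17` there is `r₀` such that for all `r ≥ r₀` and all large `N`: call `n ≡ c`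
modulo `30` good if none of `n, n + 2, n + 6` has a prime factor `p ≤ N ^ (1 / r)`; for `n ≤ N` these
numbers then have at most `r` prime factors. In EVERY interval `(u, u + Y]` with `Y ≥ N ^ θ`, `u ≥ 30`, and
for all `l`, `T` with `l ≤ l₀` or `T V ≤ x₀` the number of the good `n` with fewer than `l` good integers in
`[n - T, n)` is `Y V ∑_{j < l} e ^ (-T V) (T V) ^ j / j!` up to at most `ε Y V`, where `V > 0` is the
product of `1 - 3 / p` over the primes `5 < p ≤ N ^ (1 / r)`, divided by `30`.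
(2) The same for `n ≡ 11` modulo `30`, the quadruples `n, n + 2, n + 6, n + 8` and `1 - 4 / p`. -/
theorem result (θ : ℝ) (hθ : 0 < θ) (l₀ : ℕ) (x₀ ε : ℝ) (hε : 0 < ε) :
    (∀ c : ℕ, c = 11 ∨ c = 17 → ∃ r₀ : ℕ, 2 ≤ r₀ ∧ ∀ r : ℕ, r₀ ≤ r → ∃ N₀ : ℕ, ∀ N : ℕ, N₀ ≤ N →
      ((∀ n : ℕ, n ≤ N → Good 30 c ![0, 2, 6] N r n → ∀ i, (n + ![0, 2, 6] i).primeFactorsList.length ≤ r) ∧
        0 < V 5 30 3 N r) ∧
      ∀ u Y : ℕ, 30 ≤ u → (N : ℝ) ^ θ ≤ Y → ∀ l T : ℕ, (l ≤ l₀ ∨ T * V 5 30 3 N r ≤ x₀) →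
        |(GS 30 c ![0, 2, 6] N r l T u Y : ℝ) - Y * V 5 30 3 N r *
          ∑ j ∈ range l, Real.exp (-(T * V 5 30 3 N r)) * (T * V 5 30 3 N r) ^ j / j.factorial| ≤
        ε * (Y * V 5 30 3 N r)) ∧
    ∃ r₀ : ℕ, 2 ≤ r₀ ∧ ∀ r : ℕ, r₀ ≤ r → ∃ N₀ : ℕ, ∀ N : ℕ, N₀ ≤ N →
      ((∀ n : ℕ, n ≤ N → Good 30 11 ![0, 2, 6, 8] N r n → ∀ i, (n + ![0, 2, 6, 8] i).primeFactorsList.length ≤ r) ∧
        0 < V 5 30 4 N r) ∧
      ∀ u Y : ℕ, 30 ≤ u → (N : ℝ) ^ θ ≤ Y → ∀ l T : ℕ, (l ≤ l₀ ∨ T * V 5 30 4 N r ≤ x₀) →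
        |(GS 30 11 ![0, 2, 6, 8] N r l T u Y : ℝ) - Y * V 5 30 4 N r *
          ∑ j ∈ range l, Real.exp (-(T * V 5 30 4 N r)) * (T * V 5 30 4 N r) ^ j / j.factorial| ≤
        ε * (Y * V 5 30 4 N r) :=
  ⟨fun c hc => short (pat_ta c hc) (by rcases hc with rfl | rfl <;> decide) θ hθ l₀ x₀ ε hε,
    short pat_quad (by decide) θ hθ l₀ x₀ ε hε⟩

end Pool.Agent.Results.MP_3efbeb_nt.TripleAndQuadrupleLaws
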